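import Pool.Agent.H45.SF.GT

/-!
# MP_3b3fc8_lc: restriction and image of a map with values in an algebra
-/

open Ordinal Cardinal Order Set
open scoped ZFSet

namespace SF.H59

open SF

private theorem br_aux {B C : V} [IsCBA B] [IsCBA C] (h : Mor B C) (c : El C)
    (f : V × V → El B) (s : Finset (V × V)) (hs : s.Nonempty) :
    (s.inf fun q => h (f q) ⊓ c) ≤ h (s.inf f) := by
  classical
  induction hs using Finset.Nonempty.cons_induction with
  | singleton a =>
    rw [Finset.inf_singleton, Finset.inf_singleton]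
    exact inf_le_left
  | cons a t ha ht ih =>
    rw [Finset.inf_cons, Finset.inf_cons, h.inf]
    exact inf_le_inf inf_le_left ih

theorem br (hMB : T_MB) : T_BR := by
  intro B C iB iC N' N b σ h hσ c hc
  obtain ⟨hmono, hbot, hsup, hcompl, hsdiff, hiSup, hiInf⟩ := hMB B C h
  refine ⟨?_, ?_, ?_, ?_⟩
  · intro x hx
    show (⨆ y, h (σ x y) ⊓ c) = c
    rw [← iSup_inf_eq, ← hiSup, hσ.tot x hx]
    exact inf_eq_right.2 hc
  · intro x y y' hy
    show (h (σ x y) ⊓ c) ⊓ (h (σ x y') ⊓ c) = ⊥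
    rw [← inf_inf_distrib_right, ← h.inf, hσ.fn x y y' hy, hbot, bot_inf_eq]
  · intro x y hxy
    refine hσ.dom x y fun h0 => hxy ?_
    show h (σ x y) ⊓ c = ⊥
    rw [h0, hbot, bot_inf_eq]
  · intro s hs v hv φ
    refine hσ.el s (fun h0 => hs ?_) v hv φ
    have h1 := br_aux h c (fun q => σ q.1 q.2) s ⟨v 0, hv 0⟩
    rw [h0, hbot] at h1
    exact le_bot_iff.1 h1

end SF.H59
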