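import Pool.Agent.H45.SF.UT

/-!
# Properties of the algebra of the category forcing
-/

open Ordinal Cardinal Order Set
open scoped ZFSet

namespace SF.H59

open SF

private theorem mem_cl {P : V} {le : V → V → Prop} {p q : V} : q ∈ cl P le p ↔
    q ∈ P ∧ ∀ r ∈ P, le r q → ∃ s ∈ P, le s r ∧ le s p := by
  unfold cl
  rw [ZFSet.mem_sep]

private theorem mor_bot {A C : BA} (h : BMor A C) : h ⊥ = ⊥ := by
  have h1 := h.sup ∅
  rw [sSup_empty, Set.image_empty, sSup_empty] at h1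
  exact h1

private theorem mor_mono {A C : BA} (h : BMor A C) {x y : El A.B} (hxy : x ≤ y) :
    h x ≤ h y := by
  have h1 := h.inf x y
  rw [inf_eq_left.2 hxy] at h1
  rw [show h x = h.f x from rfl, h1]
  exact inf_le_right

private theorem eq_bot_iff_val {B : V} [IsCBA B] {X : El B} : X = ⊥ ↔ ∀ p, p ∉ X.val := by
  constructor
  · rintro rfl p hp
    rw [El.bot_val] at hp
    exact ZFSet.notMem_empty _ hp
  · intro h
    refine le_bot_iff.1 (El.le_iff.2 fun p hp => ?_)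
    exact absurd hp (h p)

private theorem ne_bot_iff_val {B : V} [IsCBA B] {X : El B} : X ≠ ⊥ ↔ ∃ p, p ∈ X.val := by
  rw [ne_eq, eq_bot_iff_val]
  push Not
  rfl

theorem uc (hUA : T_UA) (hUO : T_UO) (hUP : T_UP) (hUV : T_UV) : T_UC := by
  intro κ Z i hκ hCU
  obtain ⟨a1, a2, a3, a4, a5, a6, a7, a8⟩ := hUA
  obtain ⟨u1, u2, u3, u4⟩ := hUP
  obtain ⟨v1, v2, v3, v4, v5, v6, v7, v8, v9, v10, v11, v12⟩ := hUV κ hκ
  have hP : ∀ u, u ∈ UU κ ↔ ∃ c : Cd, u = c.code ∧ c.code ∈ V_ κ := (u4 κ).2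
  have hrefl : ∀ u ∈ UU κ, leU u u := (u4 κ).1
  have hcP : ∀ c : Cd, c.code ∈ V_ κ → c.code ∈ UU κ := fun c hc => (hP _).2 ⟨c, rfl, hc⟩
  have hRO : ∀ X : El Z.B, X.val ⊆ UU κ ∧ (∀ p ∈ X.val, ∀ q ∈ UU κ, leU q p → q ∈ X.val) ∧
      ∀ p ∈ UU κ, (∀ q ∈ UU κ, leU q p → ∃ r ∈ X.val, leU r q) → p ∈ X.val := fun X =>
    mem_RO.1 (hCU.alg ▸ X.mem)
  have hself : ∀ p ∈ UU κ, p ∈ cl (UU κ) leU p := fun p hp =>
    mem_cl.2 ⟨hp, fun r hr hrp => ⟨r, hr, hrefl r hr, hrp⟩⟩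
  have hclsub : ∀ (X : El Z.B) (p : V), p ∈ UU κ → (cl (UU κ) leU p ⊆ X.val ↔ p ∈ X.val) := by
    intro X p hp
    constructor
    · intro h
      exact h (hself p hp)
    · intro h q hq
      obtain ⟨hq1, hq2⟩ := mem_cl.1 hq
      refine (hRO X).2.2 q hq1 fun r hr hrq => ?_
      obtain ⟨s, hs, hsr, hsp⟩ := hq2 r hr hrq
      exact ⟨s, (hRO X).2.1 p h s hs hsp, hsr⟩
  have h5 : ∀ Y : El Z.B, ∀ c : Cd, c.code ∈ V_ κ → (c.code ∈ Y.val ↔ i c.v c.x ≤ Y) := by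
    intro Y c hc
    rw [El.le_iff, hCU.val c hc, hclsub Y _ (hcP c hc)]
  have h6 : ∀ Y : El Z.B, ∀ u ∈ Y.val, ∃ c : Cd, u = c.code ∧ c.code ∈ V_ κ := fun Y u hu =>
    (hP u).1 ((hRO Y).1 hu)
  have h1 : ∀ c c' : Cd, c.code ∈ V_ κ → c'.code ∈ V_ κ → c.le c' → i c.v c.x ≤ i c'.v c'.x := by
    intro c c' hc hc' hle
    rw [← h5 _ c hc, hCU.val c' hc', mem_cl]
    refine ⟨hcP c hc, fun r hr hrc => ⟨r, hr, hrefl r hr, u3 _ _ _ hrc ((u1 c c').2 hle)⟩⟩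
  have hv : ∀ c : Cd, c.code ∈ V_ κ → ∀ (x : El c.v.A.B) (hx : x ≠ ⊥),
      (Cd.mk c.v x hx).code ∈ V_ κ := by
    intro c hc x hx
    exact (v10 (Cd.mk c.v x hx)).2 ((v10 c).1 hc)
  -- common extension of conditions
  have hext : ∀ (c c' : Cd), c.code ∈ V_ κ → c'.code ∈ V_ κ → ∀ p,
      p ∈ (i c.v c.x).val → p ∈ (i c'.v c'.x).val → ∃ d : Cd, d.code ∈ V_ κ ∧ leU d.code p ∧
        d.le c ∧ d.le c' := by
    intro c c' hc hc' p hp hp'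
    rw [hCU.val c hc, mem_cl] at hp
    rw [hCU.val c' hc', mem_cl] at hp'
    obtain ⟨s, hs, hsp, hsc⟩ := hp.2 p hp.1 (hrefl p hp.1)
    obtain ⟨t, ht, hts, htc⟩ := hp'.2 s hs hsp
    obtain ⟨d, rfl, hd⟩ := (hP t).1 ht
    exact ⟨d, hd, u3 _ _ _ hts hsp, (u1 _ _).1 (u3 _ _ _ hts hsc), (u1 _ _).1 htc⟩
  refine ⟨h1, ?_, ?_, ?_, h5, h6, ?_, ?_, ?_⟩
  · -- compatibility with the transition maps
    intro c c' h hc hc' hh z
    by_cases hz0 : z = ⊥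
    · rw [hz0, mor_bot, mor_bot, mor_bot, bot_inf_eq]
    have hcz' := hv c' hc' z hz0
    by_cases hz : h z = ⊥
    · rw [hz, mor_bot]
      symm
      rw [eq_bot_iff_val]
      intro p hp
      rw [El.inf_val, ZFSet.mem_inter] at hp
      obtain ⟨d, hd, hdp, ⟨l, hl⟩, ⟨k, hk⟩⟩ := hext ⟨c'.v, z, hz0⟩ c hcz' hc p hp.1 hp.2
      have e1 : l = h.comp k := a5 d c'.v z c'.x hz0 c'.ne l (h.comp k) hl (a4 d c c' h k hh hk)
      have e2 : l z = d.x := hl.img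
      have e3 : l z = k (h z) := by rw [e1]; rfl
      rw [hz, mor_bot] at e3
      exact d.ne (by rw [← e2, e3])
    · have hcz := hv c hc (h z) hz
      apply le_antisymm
      · refine le_inf ?_ ?_
        · exact h1 ⟨c.v, h z, hz⟩ ⟨c'.v, z, hz0⟩ hcz hcz' ⟨_, a7 c c' h hh z hz0 hz⟩
        · refine mor_mono _ ?_
          rw [← hh.top]
          exact mor_mono h le_top
      · rw [El.le_iff, hCU.val ⟨c.v, h z, hz⟩ hcz]
        intro p hp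
        rw [El.inf_val, ZFSet.mem_inter] at hp
        rw [mem_cl]
        refine ⟨(hRO _).1 hp.1, fun r hr hrp => ?_⟩
        have hr1 := (hRO _).2.1 p hp.1 r hr hrp
        have hr2 := (hRO _).2.1 p hp.2 r hr hrp
        obtain ⟨d, hd, hdr, ⟨l, hl⟩, ⟨k, hk⟩⟩ := hext ⟨c'.v, z, hz0⟩ c hcz' hc r hr1 hr2
        have e1 : l = h.comp k := a5 d c'.v z c'.x hz0 c'.ne l (h.comp k) hl (a4 d c c' h k hh hk)
        have e2 : l z = d.x := hl.img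
        have e3 : l z = k (h z) := by rw [e1]; rfl
        refine ⟨d.code, hcP d hd, hdr, (u1 _ _).2 ⟨k, ?_⟩⟩
        exact ⟨hk.len, hk.good, hk.top, hk.gens, by rw [← e2, e3]⟩
  · intro v hvκ x hx
    by_contra hne
    have hc : (Cd.mk v x hne).code ∈ V_ κ := (v10 (Cd.mk v x hne)).2 hvκ
    have h := hself _ (hcP _ hc)
    rw [← hCU.val _ hc] at h
    exact (eq_bot_iff_val.1 hx) _ h
  · intro Y hY
    obtain ⟨p, hp⟩ := ne_bot_iff_val.1 hY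
    obtain ⟨c, rfl, hc⟩ := h6 Y p hp
    exact ⟨c, hc, (h5 Y c hc).1 hp⟩
  · intro Y Y' h
    rw [El.le_iff]
    intro p hp
    obtain ⟨c, rfl, hc⟩ := h6 Y p hp
    exact (h5 Y' c hc).2 (h c hc ((h5 Y c hc).1 hp))
  · intro Y c c' hc hc' hne
    obtain ⟨p, hp⟩ := ne_bot_iff_val.1 hne
    rw [El.inf_val, ZFSet.mem_inter, El.inf_val, ZFSet.mem_inter] at hp
    obtain ⟨d, hd, hdp, hdc, hdc'⟩ := hext c c' hc hc' p hp.2.1 hp.2.2
    exact ⟨d, hd, hdc, hdc', (h5 Y d hd).1 ((hRO Y).2.1 p hp.1 _ (hcP d hd) hdp)⟩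
  · intro v0 hA hα
    have hv0 : v0.code ∈ V_ κ := by
      refine (v9 v0).2 ⟨?_, ?_⟩
      · rw [hA]
        exact v6
      · rw [hα]
        exact hκ.lim.bot_lt
    refine ⟨hv0, ?_⟩
    have hne : (⊤ : El v0.A.B) ≠ ⊥ := by
      rw [hA]
      exact hUO.1
    have hc : (Cd.mk v0 ⊤ hne).code ∈ V_ κ := (v10 (Cd.mk v0 ⊤ hne)).2 hv0
    have hb := hCU.base (Cd.mk v0 ⊤ hne) hA hα ⊤ (by
      show (⊤ : El B0).val = (⊤ : El v0.A.B).val
      rw [hA]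
      rfl)
    rw [Z.unit] at hb
    exact hb.symm

end SF.H59
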