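import Pool.Agent.H45.SF.UT

/-!
# The category forcing: the decreasing sequence of conditions
-/

open Ordinal Cardinal Order Set
open scoped ZFSet

namespace SF.H59

open SF

/-- the dense set of the decreasing sequence -/
private theorem ukb_tm : Tm ZFm (fun M v => (v 5).sep fun x =>
    (fun (_ : V → Prop) (v : ℕ → V) => v 0 ∩ (app (v 1) (v 2) ∩ v 3) = ∅ ∨
      ∃ a ∈ v 4, ZFSet.pair a (v 2) ∈ v 5 ∧ v 0 = app (v 1) a ∧ v 0 ⊆ v 3) M (cons x v)) := by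
  refine Tm.sep (R := fun (_ : V → Prop) (v : ℕ → V) => v 0 ∩ (app (v 1) (v 2) ∩ v 3) = ∅ ∨
      ∃ a ∈ v 4, ZFSet.pair a (v 2) ∈ v 5 ∧ v 0 = app (v 1) a ∧ v 0 ⊆ v 3) ?_ (Tm.var 5)
  refine Dfb.or ?_ ?_
  · exact Dfb.eq (Tm.inter (Tm.var 0) (Tm.inter (Tm.app (Tm.var 1) (Tm.var 2)) (Tm.var 3)))
      Tm.empty
  · refine (Dfb.bex (R := fun _ v => ZFSet.pair (v 0) (v 3) ∈ v 6 ∧ v 1 = app (v 2) (v 0) ∧
      v 1 ⊆ v 4) ktr_zfm (Tm.var 4) ?_).congr fun M k v hv => Iff.rfl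
    exact (Dfb.pairMem (Tm.var 0) (Tm.var 3) (Tm.var 6)).and
      ((Dfb.eq (Tm.var 1) (Tm.app (Tm.var 2) (Tm.var 0))).and (Dfb.subset (Tm.var 1) (Tm.var 4)))

theorem ukb (hZN : T_ZN) : T_UKB := by
  intro κ Z i _ _ c0 _ A N' N p' G' b σ hNP hσ hb _ P hG hstart
  have k : ZFm (· ∈ N') := (hZN A.B N' N b σ hNP hσ hb).toZFm
  obtain ⟨mU, mL, mR, mCL, -, -, -⟩ := P.mem
  have hGN : ∀ g ∈ G', g ∈ N' := fun g hg => k.trans _ mR g (hG.sub hg)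
  have hct : {g : V | g ∈ G'}.Countable := hNP.ctb.mono fun g hg => hGN g hg
  obtain ⟨g0, hg0⟩ := hG.ne
  obtain ⟨g, hg⟩ := hct.exists_eq_range ⟨g0, hg0⟩
  have hgn : ∀ n, g n ∈ G' := fun n => by
    have h1 : g n ∈ {g : V | g ∈ G'} := by rw [hg]; exact Set.mem_range_self n
    exact h1
  -- the step
  have step : ∀ (n : ℕ) (x : {u : V // u ∈ P.U ∧ app P.CL u ∈ G'}),
      ∃ y : {u : V // u ∈ P.U ∧ app P.CL u ∈ G'},
        ZFSet.pair y.1 x.1 ∈ P.L ∧ app P.CL y.1 ⊆ g n := by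
    rintro n ⟨u, hu, huG⟩
    have huN : u ∈ N' := k.trans _ mU u hu
    set v : ℕ → V := cons P.CL (cons u (cons (g n) (cons P.U (cons P.L fun _ => P.R)))) with hv
    have hvN : In (· ∈ N') v := by
      rw [hv]
      exact (((In.cons (In.cons (v := fun _ => P.R) (fun _ => mR) mL) mU).cons
        (hGN _ (hgn n))).cons huN).cons mCL
    have hD := ukb_tm.1 (· ∈ N') k v hvN
    obtain ⟨z, hzD, hzG⟩ := hG.meets _ hD (fun z hz => (ZFSet.mem_sep.1 hz).1) (by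
      intro x hx hx0
      obtain ⟨z, hzR, hz0, hzx, hz⟩ := P.f4 u hu (g n) (hG.sub (hgn n)) x hx hx0
      refine ⟨z, ZFSet.mem_sep.2 ⟨hzR, ?_⟩, hz0, hzx⟩
      exact hz)
    have hz2 : z ∩ (app P.CL u ∩ g n) = ∅ ∨
        ∃ a ∈ P.U, ZFSet.pair a u ∈ P.L ∧ z = app P.CL a ∧ z ⊆ g n := (ZFSet.mem_sep.1 hzD).2
    rcases hz2 with h0 | ⟨a, haU, haL, hza, hzg⟩
    · exact absurd (h0 ▸ hG.inter z hzG _ (hG.inter _ huG _ (hgn n))) hG.bot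
    · exact ⟨⟨a, haU, hza ▸ hzG⟩, haL, hza ▸ hzg⟩
  choose F hF1 hF2 using step
  let u : ℕ → {u : V // u ∈ P.U ∧ app P.CL u ∈ G'} := fun n =>
    Nat.rec ⟨P.t', P.f5, hstart⟩ (fun n x => F n x) n
  refine ⟨fun n => (u n).1, rfl, fun n => ⟨(u n).2.1, (u n).2.2, hF1 n (u n)⟩, ?_⟩
  intro x hx
  have hx' : x ∈ Set.range g := by rw [← hg]; exact hx
  obtain ⟨n, rfl⟩ := hx'
  exact ⟨n + 1, hF2 n (u n)⟩

end SF.H59
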