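import Pool.Agent.H72.SF.VT

/-! Module VF: the small generic filters. -/

set_option linter.unusedVariables false

open Ordinal Cardinal Order Set
open scoped ZFSet

namespace SF.H59

open SF

private noncomputable def vkk (c r q : V) : V := cl c (fun a b => ZFSet.pair a b ∈ r) q

private theorem mem_vkk {c r q p : V} : p ∈ vkk c r q ↔ p ∈ c ∧ ∀ t ∈ c, ZFSet.pair t p ∈ r →
    ∃ s ∈ c, ZFSet.pair s t ∈ r ∧ ZFSet.pair s q ∈ r := by
  unfold vkk cl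
  rw [ZFSet.mem_sep]

private theorem tm_vkk : Tm ZFm (fun _ v => vkk (v 0) (v 1) (v 2)) := by
  have h1 : Dfb ZFm (fun _ v => ∀ t ∈ v 1, (ZFSet.pair t (v 0) ∈ v 2 →
      ∃ s ∈ v 1, ZFSet.pair s t ∈ v 2 ∧ ZFSet.pair s (v 3) ∈ v 2)) := by
    refine (Dfb.ball (R := fun _ v => ZFSet.pair (v 0) (v 1) ∈ v 3 →
      ∃ s ∈ v 2, ZFSet.pair s (v 0) ∈ v 3 ∧ ZFSet.pair s (v 4) ∈ v 3) ktr_zfm (Tm.var 1)
      ((Dfb.pairMem (Tm.var 0) (Tm.var 1) (Tm.var 3)).imp ?_)).congr fun M k v hv => Iff.rfl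
    exact (Dfb.bex (R := fun _ v => ZFSet.pair (v 0) (v 1) ∈ v 4 ∧
      ZFSet.pair (v 0) (v 5) ∈ v 4) ktr_zfm (Tm.var 2)
      ((Dfb.pairMem (Tm.var 0) (Tm.var 1) (Tm.var 4)).and
        (Dfb.pairMem (Tm.var 0) (Tm.var 5) (Tm.var 4)))).congr fun M k v hv => Iff.rfl
  refine (Tm.sep h1 (Tm.var 0)).congr fun M k v hv => ?_
  ext x
  rw [ZFSet.mem_sep, mem_vkk]
  exact Iff.rfl

/-- the set of conditions whose regular open set belongs to `G` belongs to the model -/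
private theorem vf_sep {M : V → Prop} (k : ZFm M) {c r G : V} (hc : M c) (hr : M r) (hG : M G) :
    M (c.sep fun q => vkk c r q ∈ G) := by
  have h1 : Dfb ZFm (fun _ v => vkk (v 1) (v 2) (v 0) ∈ v 3) :=
    Dfb.mem (Tm.at3 (F := fun _ x y z => vkk x y z) tm_vkk (Tm.var 1) (Tm.var 2) (Tm.var 0))
      (Tm.var 3)
  exact (Tm.sep h1 (Tm.var 0)).1 M k (cons c (cons r fun _ => G))
    (In.cons (In.cons (fun _ => hG) hr) hc)

private theorem vf_ctb {M : V → Prop} {N : V} (h : Ctbl M N) : {x | x ∈ N}.Countable := by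
  rcases h with rfl | ⟨f, -, hf⟩
  · refine Set.Countable.mono ?_ Set.countable_empty
    intro x hx
    exact absurd hx (ZFSet.notMem_empty x)
  · have hw : {x : V | x ∈ (ω : Ordinal.{0}).toZFSet}.Countable := by
      have hsub : {x : V | x ∈ (ω : Ordinal.{0}).toZFSet} ⊆
          Set.range fun n : ℕ => ((n : Ordinal.{0}).toZFSet : V) := by
        intro x hx
        obtain ⟨β, hβ, rfl⟩ := Ordinal.mem_toZFSet_iff.1 hx
        obtain ⟨n, rfl⟩ := Ordinal.lt_omega0.1 hβ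
        exact ⟨n, rfl⟩
      exact (Set.countable_range _).mono hsub
    have := hw.image (fun a => app f a)
    refine this.mono ?_
    intro b hb
    obtain ⟨a, ha, hab⟩ := hf.2 b hb
    exact ⟨a, ha, app_eq (svl_of_isFunc hf.1) hab⟩

theorem vf (hVE : T_VE) (hTSB : T_TSB) (hTSC : T_TSC) (hQA : T_QA) (hQH : T_QH) : T_VF := by
  intro S
  obtain ⟨⟨mB', mmu', mρ', mC', mk', -⟩, -, -, -, hCB', hB', hpre, hreg, hk', hkC⟩ := hVE S
  have kN := S.zN'.toZFm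
  have hqS : qS S.B' S.mu' ∈ S.N' :=
    hQH.1.1 (· ∈ S.N') kN (cons S.B' fun _ => S.mu')
      (In.cons (M := (· ∈ S.N')) (fun _ => mmu') mB')
  have hqR : qR S.B' S.mu' S.ρ' ∈ S.N' :=
    hQH.2.1.1 (· ∈ S.N') kN (cons S.B' (cons S.mu' fun _ => S.ρ'))
      (In.cons (M := (· ∈ S.N')) (In.cons (M := (· ∈ S.N')) (fun _ => mρ') mmu') mB')
  have hPo : IsPo (qS S.B' S.mu') (qR S.B' S.mu' S.ρ') := hQA.1 _ _ _ _ hCB' hB' hpre
  obtain ⟨h1, h2⟩ := hTSC S.N' _ _ S.C' S.G' kN hqS hqR mC' hPo hreg S.gen'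
  have h2' : ∀ O ∈ S.C', O ∈ S.G' ↔ ∃ t ∈ O, t ∈ S.K' := by
    intro O hO
    rw [h2 O hO]
    have hOs : O ⊆ qS S.B' S.mu' := ((hreg O (kN.trans _ mC' O hO)).1 hO).1
    refine exists_congr fun t => and_congr_right fun ht => ?_
    exact ⟨fun h => ZFSet.mem_sep.2 ⟨hOs ht, h⟩, fun h => (ZFSet.mem_sep.1 h).2⟩
  have h1' : Gen (· ∈ S.N') (qS S.B' S.mu') (qR S.B' S.mu' S.ρ') S.K' := h1
  obtain ⟨h3, h4, h5⟩ := hTSB (· ∈ S.N') S.B' S.mu' S.ρ' S.K' kN (vf_ctb S.ct') mB' hCB' hB' mmu'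
    mρ' hpre h1'
  have kM := S.zfc.toZFCm.toZFm
  have hM : ∀ x ∈ S.N', x ∈ S.M := fun x hx => kM.trans _ S.mN' x hx
  have hK : S.K' ∈ S.M := vf_sep kM (hM _ hqS) (hM _ hqR) S.mG'
  refine ⟨h1', h2', h3, h4, h5, ?_, hK, ?_, ?_⟩
  · intro x hx
    obtain ⟨ξ, hξ⟩ := mem_dm.1 hx
    have hq := h1'.1.sub hξ
    obtain ⟨a, ha, b, hb, e⟩ := ZFSet.mem_prod.1 hq
    obtain ⟨rfl, rfl⟩ := ZFSet.pair_injective e
    have hxB : x ∈ S.B' := (ZFSet.mem_sdiff.1 ha).1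
    have hO : kS S.B' S.mu' x ∈ S.G' := by
      rw [h2' _ (hkC x hxB)]
      refine ⟨_, ZFSet.mem_sep.2 ⟨hq, ?_⟩, hξ⟩
      rw [fst_pair]
    refine S.com x _ ?_ hO
    rw [hk']
    exact mem_resS.2 ⟨x, hxB, rfl⟩
  · exact (Tm.dm (Tm.var 0)).1 (· ∈ S.M) kM (fun _ => S.K') fun _ => hK
  · exact (Tm.rg (Tm.var 0)).1 (· ∈ S.M) kM (fun _ => S.K') fun _ => hK

end SF.H59
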