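import Pool.Agent.H72.SF.YT

/-!
# Definability of maps with values in an algebra
-/

set_option linter.unusedVariables false

open Ordinal Cardinal Order Set
open scoped ZFSet

namespace SF.H59

open SF

private theorem yb_pe : Dfb ZFm (fun _ v => PE (v 0) (v 1) (v 2)) := by
  refine Dfb.congr (R := fun _ v => dm (v 2) ⊆ v 0 ∧ (∀ x ∈ dm (v 2), app (v 2) x ∈ v 1) ∧
    ∀ c ∈ CD, ∀ t ∈ PL (dm (v 2)), (t ∈ sS (v 0) ∅ c ↔ mpl (v 2) t ∈ sS (v 1) ∅ c)) ?_ ?_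
  · refine (Dfb.subset (Tm.dm (Tm.var 2)) (Tm.var 0)).and (Dfb.and ?_ ?_)
    · exact (Dfb.ball (R := fun _ v => app (v 3) (v 0) ∈ v 2) ktr_zfm (Tm.dm (Tm.var 2))
        (Dfb.mem (Tm.app (Tm.var 3) (Tm.var 0)) (Tm.var 2))).congr fun M k v hv => Iff.rfl
    · refine (Dfb.ball (R := fun _ v => ∀ t ∈ PL (dm (v 3)), (t ∈ sS (v 1) ∅ (v 0) ↔
        mpl (v 3) t ∈ sS (v 2) ∅ (v 0))) ktr_zfm Tm.CD ?_).congr fun M k v hv => Iff.rfl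
      refine (Dfb.ball (R := fun _ v => (v 0 ∈ sS (v 2) ∅ (v 1) ↔
        mpl (v 4) (v 0) ∈ sS (v 3) ∅ (v 1))) ktr_zfm (Tm.PL (Tm.dm (Tm.var 3))) ?_).congr
        fun M k v hv => Iff.rfl
      exact (Dfb.mem (Tm.var 0) (Tm.sS (Tm.var 2) Tm.empty (Tm.var 1))).iff
        (Dfb.mem (Tm.mpl (Tm.var 4) (Tm.var 0)) (Tm.sS (Tm.var 3) Tm.empty (Tm.var 1)))
  · intro M k v hv
    unfold PE
    constructor
    · rintro ⟨h1, h2, h3⟩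
      exact ⟨h1, h2, (pel_iff h1 h2).2 h3⟩
    · rintro ⟨h1, h2, h3⟩
      exact ⟨h1, h2, (pel_iff h1 h2).1 h3⟩

private theorem yb_bmap (hYA : T_YA) (hWF : T_WF) :
    Dfb ZFm (fun _ v => BMapS (v 0) (v 1) (v 2) (v 3) (v 4)) := by
  have h1 : Dfb ZFm (fun _ v => ZFSet.IsFunc (ZFSet.prod (v 0) (v 1)) (v 2) (v 4)) :=
    Dfb.isFunc (Tm.prod (Tm.var 0) (Tm.var 1)) (Tm.var 2) (Tm.var 4)
  have h2 : Dfb ZFm (fun _ v => v 3 ∈ v 2) := Dfb.mem (Tm.var 3) (Tm.var 2)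
  have h3 : Dfb ZFm (fun _ v => ∀ x ∈ v 0,
      LubB (v 2) (imS (v 1) fun y => app (v 4) (ZFSet.pair x y)) (v 3)) := by
    refine (Dfb.ball (R := fun _ v => LubB (v 3)
      (imS (v 2) fun y => app (v 5) (ZFSet.pair (v 0) y)) (v 4)) ktr_zfm (Tm.var 0) ?_).congr
      fun M k v hv => Iff.rfl
    refine Dfb.at3 (P := fun _ x y z => LubB x y z) hWF.1 (Tm.var 3) ?_ (Tm.var 4)
    exact Tm.image (f := fun _ v => v 2) (g := fun _ v => app (v 6) (ZFSet.pair (v 1) (v 0)))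
      (Tm.var 2) (Tm.app (Tm.var 6) (Tm.pair (Tm.var 1) (Tm.var 0)))
  have h4 : Dfb ZFm (fun _ v => ∀ x ∈ v 0, ∀ y ∈ v 1, ∀ y' ∈ v 1, y ≠ y' →
      app (v 4) (ZFSet.pair x y) ∩ app (v 4) (ZFSet.pair x y') = ∅) := by
    refine (Dfb.ball (R := fun _ v => ∀ y ∈ v 2, ∀ y' ∈ v 2, y ≠ y' →
      app (v 5) (ZFSet.pair (v 0) y) ∩ app (v 5) (ZFSet.pair (v 0) y') = ∅) ktr_zfm (Tm.var 0)
      ?_).congr fun M k v hv => Iff.rfl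
    refine (Dfb.ball (R := fun _ v => ∀ y' ∈ v 3, v 0 ≠ y' →
      app (v 6) (ZFSet.pair (v 1) (v 0)) ∩ app (v 6) (ZFSet.pair (v 1) y') = ∅) ktr_zfm (Tm.var 2)
      ?_).congr fun M k v hv => Iff.rfl
    refine (Dfb.ball (R := fun _ v => v 1 ≠ v 0 →
      app (v 7) (ZFSet.pair (v 2) (v 1)) ∩ app (v 7) (ZFSet.pair (v 2) (v 0)) = ∅) ktr_zfm
      (Tm.var 3) ?_).congr fun M k v hv => Iff.rfl
    exact (Dfb.eq (Tm.var 1) (Tm.var 0)).not.imp (Dfb.eq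
      (Tm.inter (Tm.app (Tm.var 7) (Tm.pair (Tm.var 2) (Tm.var 1)))
        (Tm.app (Tm.var 7) (Tm.pair (Tm.var 2) (Tm.var 0)))) Tm.empty)
  have h5 : Dfb ZFm (fun M v => ∀ s, M s → (s ⊆ ZFSet.prod (v 0) (v 1) → (s : Set V).Finite →
      (∃ x ∈ v 2, x ≠ ∅ ∧ ∀ q ∈ s, x ⊆ app (v 4) q) → PE (v 0) (v 1) s)) := by
    refine (Dfb.all (R := fun _ v => v 0 ⊆ ZFSet.prod (v 1) (v 2) → ((v 0 : V) : Set V).Finite →
      (∃ x ∈ v 3, x ≠ ∅ ∧ ∀ q ∈ v 0, x ⊆ app (v 5) q) → PE (v 1) (v 2) (v 0)) ?_).congr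
      fun M k v hv => Iff.rfl
    refine (Dfb.subset (Tm.var 0) (Tm.prod (Tm.var 1) (Tm.var 2))).imp (Dfb.imp
      (Dfb.at1 (P := fun _ x => (x : Set V).Finite) hYA.2.2.2.2.1 (Tm.var 0)) (Dfb.imp ?_ ?_))
    · refine (Dfb.bex (R := fun _ v => v 0 ≠ ∅ ∧ ∀ q ∈ v 1, v 0 ⊆ app (v 6) q) ktr_zfm
        (Tm.var 3) ?_).congr fun M k v hv => Iff.rfl
      refine (Dfb.eq (Tm.var 0) Tm.empty).not.and ?_
      exact (Dfb.ball (R := fun _ v => v 1 ⊆ app (v 7) (v 0)) ktr_zfm (Tm.var 1)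
        (Dfb.subset (Tm.var 1) (Tm.app (Tm.var 7) (Tm.var 0)))).congr fun M k v hv => Iff.rfl
    · exact Dfb.at3 (P := fun _ x y z => PE x y z) yb_pe (Tm.var 1) (Tm.var 2) (Tm.var 0)
  refine (h1.and (h2.and (h3.and (h4.and h5)))).congr fun M k v hv => ?_
  constructor
  · rintro ⟨a1, a2, a3, a4, a5⟩
    refine ⟨a1, a2, a3, a4, fun s hs hfin hx => ?_⟩
    have hM : M (ZFSet.prod (v 0) (v 1)) :=
      (Tm.prod (Tm.var (K := ZFm) 0) (Tm.var 1)).1 M k v hv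
    exact a5 s (hYA.2.2.2.2.2.2 M k _ hM s hs hfin) hs hfin hx
  · rintro ⟨a1, a2, a3, a4, a5⟩
    exact ⟨a1, a2, a3, a4, fun s _ hs hfin hx => a5 s hs hfin hx⟩

private theorem yb_npr : Dfb ZFm (fun M v => NPr M (v 0) (v 1)) := by
  have h1 : Dfb ZFm (fun M v => ∃ A ∈ v 1, ∃ t, M t ∧ (IsOrd t ∧ v 1 = LAS A t)) := by
    refine (Dfb.bex (R := fun M v => ∃ t, M t ∧ (IsOrd t ∧ v 2 = LAS (v 0) t)) ktr_zfm
      (Tm.var 1) ?_).congr fun M k v hv => Iff.rfl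
    refine (Dfb.ex (R := fun M v => IsOrd (v 0) ∧ v 3 = LAS (v 1) (v 0)) ?_).congr
      fun M k v hv => Iff.rfl
    exact (Dfb.isOrd (Tm.var 0)).and (Dfb.eq (Tm.var 3) (Tm.LAS (Tm.var 1) (Tm.var 0)))
  refine ((Dfb.zfcm (Tm.var 1)).and (h1.and ((Dfb.full (Tm.var 0)).and
    (Dfb.ctbl (Tm.var 0))))).congr fun M k v hv => ?_
  constructor
  · rintro ⟨a1, ⟨A, hA, t, ht, ⟨τ, rfl⟩, h2⟩, a3, a4⟩
    rw [LAS_ord] at h2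
    exact ⟨a1, ⟨A, τ, hA, ht, h2⟩, a3, a4⟩
  · rintro ⟨a1, ⟨A, τ, hA, ht, h2⟩, a3, a4⟩
    refine ⟨a1, ⟨A, hA, τ.toZFSet, ht, ⟨τ, rfl⟩, ?_⟩, a3, a4⟩
    rw [LAS_ord]
    exact h2

private theorem yb_blw : Dfb ZFm (fun _ v => Blw (v 0) (v 1) (v 2) (v 3)) := by
  have ht : Tm ZFm (fun _ v => app (v 1) (ZFSet.pair (v 2) (v 3))) :=
    Tm.app (Tm.var 1) (Tm.pair (Tm.var 2) (Tm.var 3))
  exact (Dfb.subset ht (Tm.var 3)).and ((Dfb.mem (Tm.var 3) (Tm.var 0)).not.imp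
    (Dfb.eq ht Tm.empty))

theorem yb (hYA : T_YA) (hWF : T_WF) : T_YB :=
  ⟨yb_pe, yb_bmap hYA hWF, yb_npr, yb_blw⟩

end SF.H59
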